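import Mathlib

set_option autoImplicit false

namespace Pool.Agent.Results.MP_66eb21_an.NoAP

/-- The space `E_{F,I}` with basis `x g i`. -/
abbrev E (F I : Type) : Type := (F × I) →₀ ℝ

/-- The basis vector `x_{g,i}`. -/
noncomputable def x {F I : Type} (g : F) (i : I) : E F I := Finsupp.single (g, i) 1

/-- The linear map `x_{g,i} ↦ x_{φ g, ψ i}`. -/
noncomputable def lin {F I H J : Type} (φ : F → H) (ψ : I → J) : E F I →ₗ[ℝ] E H J :=
  Finsupp.lmapDomain ℝ ℝ fun p => (φ p.1, ψ p.2)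

/-- The action `g · x_{f,i} = x_{gf,i}`. -/
noncomputable def act {F I : Type} [Group F] (g : F) : E F I →ₗ[ℝ] E F I :=
  lin (fun f => g * f) id

/-- A rational finitely presented action: a finite group `F`, a nonempty finite set `I`, an
admissible finite set `W` of rational vectors and a rational-valued partial `F`-norm on `W`
(the values of `ν` outside `W` are irrelevant). -/
structure RFP : Type 1 where
  F : Type
  [grp : Group F]
  [finF : Finite F]
  I : Type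
  [finI : Finite I]
  [neI : Nonempty I]
  W : Set (E F I)
  ν : E F I → ℝ
  W_fin : W.Finite
  zero_mem : (0 : E F I) ∈ W
  neg_mem : ∀ w ∈ W, -w ∈ W
  act_mem : ∀ g : F, ∀ w ∈ W, act g w ∈ W
  sub_mem : ∀ i j : I, i ≠ j → x 1 i - x 1 j ∈ W
  basis_mem : ∀ (g : F) (i : I), x g i ∈ W
  ν_nonneg : ∀ w ∈ W, 0 ≤ ν w
  ν_eq_zero : ∀ w ∈ W, (ν w = 0 ↔ w = 0)
  ν_smul : ∀ (α : ℝ), ∀ w ∈ W, α • w ∈ W → ν (α • w) = |α| * ν w
  ν_le : ∀ w ∈ W, ∀ (n : ℕ) (α : Fin n → ℝ) (v : Fin n → E F I), (∀ k, v k ∈ W) →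
    w = ∑ k, α k • v k → ν w ≤ ∑ k, |α k| * ν (v k)
  ν_act : ∀ g : F, ∀ w ∈ W, ν (act g w) = ν w
  W_rat : ∀ w ∈ W, ∀ p, ∃ q : ℚ, w p = q
  ν_rat : ∀ w ∈ W, ∃ q : ℚ, ν w = q

attribute [instance] RFP.grp RFP.finF RFP.finI RFP.neI

/-- The maximal extension of the partial norm. -/
noncomputable def RFP.nm (A : RFP) (y : E A.F A.I) : ℝ :=
  sInf {s | ∃ (n : ℕ) (β : Fin n → ℝ) (v : Fin n → E A.F A.I), (∀ k, v k ∈ A.W) ∧
    y = ∑ k, β k • v k ∧ s = ∑ k, |β k| * A.ν (v k)}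

/-- Embeddings of finitely presented actions. -/
structure Emb (A B : RFP) where
  φ : A.F →* B.F
  ψ : A.I → B.I
  φ_inj : Function.Injective φ
  ψ_inj : Function.Injective ψ
  isom : ∀ y, B.nm (lin φ ψ y) = A.nm y

theorem lin_x {F I H J : Type} (φ : F → H) (ψ : I → J) (g : F) (i : I) :
    lin φ ψ (x g i) = x (φ g) (ψ i) := by
  simp [lin, x]

theorem act_x {F I : Type} [Group F] (g f : F) (i : I) : act g (x f i) = x (g * f) i :=
  lin_x _ _ _ _

theorem hom_ext {F I M : Type} [AddCommGroup M] [Module ℝ M] {f g : E F I →ₗ[ℝ] M}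
    (h : ∀ a i, f (x a i) = g (x a i)) : f = g := by
  apply Finsupp.lhom_ext'
  rintro ⟨a, i⟩
  ext
  simpa [x] using h a i

namespace RFP
variable (A : RFP)

def S (y : E A.F A.I) : Set ℝ :=
  {s | ∃ (n : ℕ) (β : Fin n → ℝ) (v : Fin n → E A.F A.I), (∀ k, v k ∈ A.W) ∧
    y = ∑ k, β k • v k ∧ s = ∑ k, |β k| * A.ν (v k)}

theorem S_bdd (y : E A.F A.I) : BddBelow (A.S y) := by
  refine ⟨0, ?_⟩
  rintro _ ⟨n, β, v, hv, -, rfl⟩
  exact Finset.sum_nonneg fun k _ => mul_nonneg (abs_nonneg _) (A.ν_nonneg _ (hv k))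

theorem S_add {y z : E A.F A.I} {s t : ℝ} (hs : s ∈ A.S y) (ht : t ∈ A.S z) :
    s + t ∈ A.S (y + z) := by
  obtain ⟨n, β, v, hv, rfl, rfl⟩ := hs
  obtain ⟨m, γ, u, hu, rfl, rfl⟩ := ht
  refine ⟨n + m, Fin.append β γ, Fin.append v u, fun k => ?_, ?_, ?_⟩
  · refine Fin.addCases (fun i => ?_) (fun i => ?_) k
    · rw [Fin.append_left]; exact hv i
    · rw [Fin.append_right]; exact hu i
  · simp [Fin.sum_univ_add]
  · simp [Fin.sum_univ_add]

theorem S_smul (c : ℝ) {y : E A.F A.I} {s : ℝ} (hs : s ∈ A.S y) : |c| * s ∈ A.S (c • y) := by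
  obtain ⟨n, β, v, hv, rfl, rfl⟩ := hs
  refine ⟨n, fun k => c * β k, v, hv, ?_, ?_⟩
  · simp [Finset.smul_sum, mul_smul]
  · simp [Finset.mul_sum, abs_mul, mul_assoc]

theorem S_mem {w : E A.F A.I} (hw : w ∈ A.W) : A.ν w ∈ A.S w :=
  ⟨1, fun _ => 1, fun _ => w, fun _ => hw, by simp, by simp⟩

theorem S_ne (y : E A.F A.I) : (A.S y).Nonempty := by
  induction y using Finsupp.induction_linear with
  | zero => exact ⟨_, A.S_mem A.zero_mem⟩
  | add y z hy hz =>
    obtain ⟨s, hs⟩ := hy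
    obtain ⟨t, ht⟩ := hz
    exact ⟨_, A.S_add hs ht⟩
  | single p c =>
    have := A.S_smul c (A.S_mem (A.basis_mem p.1 p.2))
    rw [x, Finsupp.smul_single, smul_eq_mul, mul_one] at this
    exact ⟨_, this⟩

theorem nm_le {y : E A.F A.I} {s : ℝ} (hs : s ∈ A.S y) : A.nm y ≤ s := csInf_le (A.S_bdd y) hs

theorem le_nm {y : E A.F A.I} {c : ℝ} (h : ∀ s ∈ A.S y, c ≤ s) : c ≤ A.nm y :=
  le_csInf (A.S_ne y) h

theorem nm_add (y z : E A.F A.I) : A.nm (y + z) ≤ A.nm y + A.nm z := by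
  rw [← sub_le_iff_le_add]
  apply A.le_nm
  intro s hs
  rw [sub_le_comm]
  apply A.le_nm
  intro t ht
  have := A.nm_le (A.S_add hs ht)
  linarith

theorem nm_smul_le (c : ℝ) (hc : c ≠ 0) (y : E A.F A.I) : A.nm (c • y) ≤ |c| * A.nm y := by
  have h0 : 0 < |c| := abs_pos.2 hc
  rw [← div_le_iff₀' h0]
  apply A.le_nm
  intro s hs
  rw [div_le_iff₀' h0]
  exact A.nm_le (A.S_smul c hs)

theorem nm_smul (c : ℝ) (hc : 0 < c) (y : E A.F A.I) : A.nm (c • y) = c * A.nm y := by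
  apply le_antisymm
  · simpa [abs_of_pos hc] using A.nm_smul_le c hc.ne' y
  · have := A.nm_smul_le c⁻¹ (inv_ne_zero hc.ne') (c • y)
    rw [smul_smul, inv_mul_cancel₀ hc.ne', one_smul, abs_of_pos (inv_pos.2 hc)] at this
    rwa [le_inv_mul_iff₀ hc] at this

theorem nm_act_le (g : A.F) (y : E A.F A.I) : A.nm (act g y) ≤ A.nm y := by
  apply A.le_nm
  rintro _ ⟨n, β, v, hv, rfl, rfl⟩
  apply A.nm_le
  refine ⟨n, β, fun k => act g (v k), fun k => A.act_mem g _ (hv k), by simp, ?_⟩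
  exact Finset.sum_congr rfl fun k _ => by rw [A.ν_act g _ (hv k)]

theorem nm_W {w : E A.F A.I} (hw : w ∈ A.W) : A.nm w = A.ν w := by
  refine le_antisymm (A.nm_le (A.S_mem hw)) (A.le_nm ?_)
  rintro _ ⟨n, β, v, hv, h, rfl⟩
  exact A.ν_le w hw n β v hv h

theorem fn_le (f : E A.F A.I →ₗ[ℝ] ℝ) (hf : ∀ w ∈ A.W, |f w| ≤ A.ν w) (y : E A.F A.I) :
    f y ≤ A.nm y := by
  apply A.le_nm
  rintro _ ⟨n, β, v, hv, rfl, rfl⟩
  rw [map_sum]
  refine Finset.sum_le_sum fun k _ => ?_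
  rw [map_smul, smul_eq_mul]
  refine (le_abs_self _).trans ?_
  rw [abs_mul]
  exact mul_le_mul_of_nonneg_left (hf _ (hv k)) (abs_nonneg _)

theorem hb (y : E A.F A.I) (hy : y ≠ 0) :
    ∃ f : E A.F A.I →ₗ[ℝ] ℝ, f y = A.nm y ∧ ∀ z, f z ≤ A.nm z := by
  have h0 : ∀ z, 0 ≤ A.nm z := fun z => by simpa using A.fn_le 0 (by simpa using A.ν_nonneg) z
  obtain ⟨g, hg, hg'⟩ := exists_extension_of_le_sublinear (LinearPMap.mkSpanSingleton y (A.nm y) hy)
    A.nm (fun c hc z => A.nm_smul c hc z) A.nm_add (by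
      rintro ⟨z, hz⟩
      obtain ⟨c, rfl⟩ := Submodule.mem_span_singleton.1 hz
      have e : (LinearPMap.mkSpanSingleton y (A.nm y) hy) ⟨c • y, hz⟩ = c • A.nm y :=
        LinearPMap.mkSpanSingleton'_apply _ _ _ _ _
      rw [e]
      rcases lt_or_ge 0 c with h | h
      · exact (A.nm_smul c h y).ge
      · exact (mul_nonpos_of_nonpos_of_nonneg h (h0 y)).trans (h0 _))
  exact ⟨g, (hg ⟨y, Submodule.mem_span_singleton_self y⟩).trans
    (LinearPMap.mkSpanSingleton_apply ℝ ℝ hy _), hg'⟩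

end RFP

/-- The generating vectors of norm one. `R a b` says which extra vectors `2 x_{g,a} - x_{h,b}`
(`g ≠ h`) are present. -/
def Gen (F : Type) (R : Bool → Bool → Prop) : Set (E F Bool) :=
  {w | (∃ g i, w = x g i) ∨ (∃ g, w = x g false + x g true) ∨ (∃ g, w = x g false - x g true) ∨
    ∃ g h a b, g ≠ h ∧ R a b ∧ w = (2 : ℝ) • x g a - x h b}

def WW (F : Type) (R : Bool → Bool → Prop) : Set (E F Bool) :=
  {w | w = 0 ∨ w ∈ Gen F R ∨ -w ∈ Gen F R}

open Classical in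
noncomputable def νν {F : Type} (w : E F Bool) : ℝ := if w = 0 then 0 else 1

theorem νν_congr {F H : Type} {w : E F Bool} {v : E H Bool} (h : w = 0 ↔ v = 0) :
    νν w = νν v := by
  unfold νν
  by_cases hv : v = 0
  · rw [if_pos hv, if_pos (h.2 hv)]
  · rw [if_neg hv, if_neg (fun hw => hv (h.1 hw))]

theorem gen_fin (F : Type) [Finite F] (R : Bool → Bool → Prop) : (Gen F R).Finite := by
  refine (((Set.finite_range fun p : F × Bool => x p.1 p.2).union
    (Set.finite_range fun g : F => x g false + x g true)).union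
    ((Set.finite_range fun g : F => x g false - x g true).union
    (Set.finite_range fun p : F × F × Bool × Bool =>
      (2 : ℝ) • x p.1 p.2.2.1 - x p.2.1 p.2.2.2))).subset ?_
  rintro w (⟨g, i, rfl⟩ | ⟨g, rfl⟩ | ⟨g, rfl⟩ | ⟨g, h, a, b, -, -, rfl⟩)
  · exact Or.inl (Or.inl ⟨(g, i), rfl⟩)
  · exact Or.inl (Or.inr ⟨g, rfl⟩)
  · exact Or.inr (Or.inl ⟨g, rfl⟩)
  · exact Or.inr (Or.inr ⟨(g, h, a, b), rfl⟩)

theorem gen_act {F : Type} [Group F] {R : Bool → Bool → Prop} (k : F) {w : E F Bool}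
    (hw : w ∈ Gen F R) : act k w ∈ Gen F R := by
  rcases hw with ⟨g, i, rfl⟩ | ⟨g, rfl⟩ | ⟨g, rfl⟩ | ⟨g, h, a, b, h1, h2, rfl⟩
  · exact Or.inl ⟨_, _, act_x _ _ _⟩
  · exact Or.inr (Or.inl ⟨k * g, by simp [act_x]⟩)
  · exact Or.inr (Or.inr (Or.inl ⟨k * g, by simp [act_x]⟩))
  · exact Or.inr (Or.inr (Or.inr ⟨k * g, k * h, a, b, by simpa using h1, h2, by simp [act_x]⟩))

theorem x_rat {F : Type} (g : F) (i : Bool) (p : F × Bool) : ∃ q : ℚ, x g i p = q := by
  classical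
  unfold x
  rw [Finsupp.single_apply]
  split_ifs
  · exact ⟨1, by simp⟩
  · exact ⟨0, by simp⟩

theorem gen_rat {F : Type} {R : Bool → Bool → Prop} {w : E F Bool} (hw : w ∈ Gen F R)
    (p : F × Bool) : ∃ q : ℚ, w p = q := by
  rcases hw with ⟨g, i, rfl⟩ | ⟨g, rfl⟩ | ⟨g, rfl⟩ | ⟨g, h, a, b, h1, h2, rfl⟩
  · exact x_rat _ _ _
  · obtain ⟨q, hq⟩ := x_rat g false p
    obtain ⟨r, hr⟩ := x_rat g true p
    exact ⟨q + r, by simp [hq, hr]⟩
  · obtain ⟨q, hq⟩ := x_rat g false p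
    obtain ⟨r, hr⟩ := x_rat g true p
    exact ⟨q - r, by simp [hq, hr]⟩
  · obtain ⟨q, hq⟩ := x_rat g a p
    obtain ⟨r, hr⟩ := x_rat h b p
    exact ⟨2 * q - r, by simp [hq, hr]⟩

/-- norming functionals -/
def Normed (F : Type) (R : Bool → Bool → Prop) : Prop :=
  ∀ w ∈ Gen F R, ∃ f : E F Bool →ₗ[ℝ] ℝ, |f w| = 1 ∧ ∀ v ∈ Gen F R, |f v| ≤ 1

theorem ww_le {F : Type} {R : Bool → Bool → Prop} {f : E F Bool →ₗ[ℝ] ℝ}
    (hN : Normed F R) (hf : ∀ v ∈ Gen F R, |f v| ≤ 1) : ∀ w ∈ WW F R, |f w| ≤ νν w := by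
  intro w hw
  unfold νν
  split_ifs with h
  · simp [h]
  · rcases hw with hw | hw | hw
    · exact absurd hw h
    · exact hf w hw
    · simpa using hf _ hw

theorem ww_norm {F : Type} {R : Bool → Bool → Prop} (hN : Normed F R) {w : E F Bool}
    (hw : w ∈ WW F R) : ∃ f : E F Bool →ₗ[ℝ] ℝ, |f w| = νν w ∧ ∀ v ∈ WW F R, |f v| ≤ νν v := by
  by_cases h : w = 0
  · exact ⟨0, by simp [νν, h], ww_le hN (by simp)⟩
  · rcases hw with hw | hw | hw
    · exact absurd hw h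
    · obtain ⟨f, h1, h2⟩ := hN w hw
      exact ⟨f, by simp [νν, h, h1], ww_le hN h2⟩
    · obtain ⟨f, h1, h2⟩ := hN _ hw
      exact ⟨f, by simpa [νν, h] using h1, ww_le hN h2⟩

theorem act_ne {F I : Type} [Group F] (g : F) (w : E F I) : act g w = 0 ↔ w = 0 := by
  refine ⟨fun h => ?_, fun h => by simp [h]⟩
  have : (act g⁻¹ : E F I →ₗ[ℝ] E F I) ∘ₗ act g = LinearMap.id :=
    hom_ext fun a i => by simp [act_x]
  have h2 := LinearMap.congr_fun this w
  simpa [h] using h2.symm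

noncomputable def mk (F : Type) [Group F] [Finite F] (R : Bool → Bool → Prop) (hN : Normed F R) :
    RFP where
  F := F
  I := Bool
  W := WW F R
  ν := νν
  W_fin := by
    refine ((Set.finite_singleton 0).union ((gen_fin F R).union
      ((gen_fin F R).preimage (neg_injective.injOn)))).subset ?_
    rintro w (h | h | h)
    · exact Or.inl h
    · exact Or.inr (Or.inl h)
    · exact Or.inr (Or.inr h)
  zero_mem := Or.inl rfl
  neg_mem := by
    rintro w (h | h | h)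
    · exact Or.inl (by simp [h])
    · exact Or.inr (Or.inr (by simpa using h))
    · exact Or.inr (Or.inl h)
  act_mem := by
    rintro g w (h | h | h)
    · exact Or.inl (by simp [h])
    · exact Or.inr (Or.inl (gen_act g h))
    · exact Or.inr (Or.inr (by simpa using gen_act g h))
  sub_mem := by
    intro i j hij
    cases i <;> cases j
    · exact absurd rfl hij
    · exact Or.inr (Or.inl (Or.inr (Or.inr (Or.inl ⟨1, rfl⟩))))
    · exact Or.inr (Or.inr (Or.inr (Or.inr (Or.inl ⟨1, by simp⟩))))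
    · exact absurd rfl hij
  basis_mem := fun g i => Or.inr (Or.inl (Or.inl ⟨g, i, rfl⟩))
  ν_nonneg := fun w _ => by unfold νν; split_ifs <;> norm_num
  ν_eq_zero := fun w _ => by unfold νν; split_ifs with h <;> simp [h]
  ν_smul := by
    intro α w hw hw'
    obtain ⟨f, h1, h2⟩ := ww_norm hN hw
    obtain ⟨f', h1', h2'⟩ := ww_norm hN hw'
    apply le_antisymm
    · rw [← h1', map_smul, smul_eq_mul, abs_mul]
      exact mul_le_mul_of_nonneg_left (h2' w hw) (abs_nonneg _)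
    · rw [← h1, ← abs_mul, ← smul_eq_mul, ← map_smul]
      exact h2 _ hw'
  ν_le := by
    intro w hw n α v hv h
    obtain ⟨f, h1, h2⟩ := ww_norm hN hw
    rw [← h1, h, map_sum]
    refine (Finset.abs_sum_le_sum_abs _ _).trans (Finset.sum_le_sum fun k _ => ?_)
    rw [map_smul, smul_eq_mul, abs_mul]
    exact mul_le_mul_of_nonneg_left (h2 _ (hv k)) (abs_nonneg _)
  ν_act := fun g w _ => νν_congr (act_ne g w)
  W_rat := by
    rintro w (h | h | h) p
    · exact ⟨0, by simp [h]⟩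
    · exact gen_rat h p
    · obtain ⟨q, hq⟩ := gen_rat h p
      exact ⟨-q, by simpa [neg_eq_iff_eq_neg] using hq⟩
  ν_rat := fun w _ => by
    unfold νν
    split_ifs
    · exact ⟨0, by simp⟩
    · exact ⟨1, by simp⟩

open Classical in
/-- the functional equal to `1` on `x_{g,a}` and on `x_{h,!a}`, `h ≠ g` -/
noncomputable def fn {F : Type} (g : F) (a : Bool) : E F Bool →ₗ[ℝ] ℝ :=
  Finsupp.linearCombination ℝ fun p => if (p.1 = g ↔ p.2 = a) then 1 else 0

open Classical in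
theorem fn_x {F : Type} (g : F) (a : Bool) (h : F) (b : Bool) :
    fn g a (x h b) = if (h = g ↔ b = a) then 1 else 0 := by
  simp [fn, x]

theorem fn_le {F : Type} (g : F) (a : Bool) (R : Bool → Bool → Prop)
    (hR : ∀ c d, R c d → c = a ∧ d = !a) : ∀ v ∈ Gen F R, |fn g a v| ≤ 1 := by
  rintro w (⟨k, i, rfl⟩ | ⟨k, rfl⟩ | ⟨k, rfl⟩ | ⟨k, h, c, d, h1, h2, rfl⟩)
  · rw [fn_x]; split_ifs <;> simp
  · by_cases hk : k = g <;> cases a <;> simp [fn_x, hk]
  · by_cases hk : k = g <;> cases a <;> simp [fn_x, hk]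
  · obtain ⟨rfl, rfl⟩ := hR c d h2
    by_cases hk : k = g
    · subst hk
      simp [fn_x, h1.symm]
      norm_num
    · by_cases hh : h = g <;> simp [fn_x, hk, hh]

theorem normed {F : Type} (R : Bool → Bool → Prop)
    (hb : ∀ (g : F) (i : Bool), ∃ k a, (∀ c d, R c d → c = a ∧ d = !a) ∧ (g = k ↔ i = a))
    (hR : ∀ c d, R c d → ∀ c' d', R c' d' → c' = c ∧ d' = !c) : Normed F R := by
  rintro w (⟨g, i, rfl⟩ | ⟨g, rfl⟩ | ⟨g, rfl⟩ | ⟨g, h, c, d, h1, h2, rfl⟩)
  · obtain ⟨k, a, h1, h2⟩ := hb g i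
    exact ⟨fn k a, by simp [fn_x, h2], fn_le k a R h1⟩
  · obtain ⟨k, a, h1, h2⟩ := hb g false
    refine ⟨fn k a, ?_, fn_le k a R h1⟩
    cases a <;> simp_all [fn_x]
  · obtain ⟨k, a, h1, h2⟩ := hb g false
    refine ⟨fn k a, ?_, fn_le k a R h1⟩
    cases a <;> simp_all [fn_x]
  · refine ⟨fn g c, ?_, fn_le g c R (hR c d h2)⟩
    obtain ⟨-, rfl⟩ := hR c d h2 c d h2
    simp [fn_x, h1.symm]
    norm_num

theorem nA : Normed PUnit.{1} (fun _ _ => False) :=
  normed _ (fun g i => ⟨g, i, by simp, by simp⟩) (by simp)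

theorem nB (F : Type) [Nontrivial F] (a : Bool) : Normed F (fun c d => c = a ∧ d = !a) :=
  normed _ (fun g i => by
    by_cases h : i = a
    · exact ⟨g, a, fun _ _ h => h, by simp [h]⟩
    · obtain ⟨k, hk⟩ := exists_ne g
      exact ⟨k, a, fun _ _ h => h, by simp [h, hk.symm]⟩)
    (by rintro c d ⟨rfl, rfl⟩ c' d' h; exact h)

noncomputable def A0 : RFP := mk PUnit.{1} _ nA

noncomputable def B0 (F : Type) [Group F] [Finite F] [Nontrivial F] (a : Bool) : RFP :=
  mk F _ (nB F a)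

noncomputable def e0 (F : Type) [Group F] [Finite F] [Nontrivial F] (a : Bool) :
    Emb A0 (B0 F a) where
  φ := 1
  ψ := id
  φ_inj := fun _ _ _ => rfl
  ψ_inj := fun _ _ h => h
  isom := by
    show ∀ y : E PUnit.{1} Bool, (B0 F a).nm (lin (fun _ => (1 : F)) id y) = A0.nm y
    intro y
    have hy : ∀ z : E PUnit.{1} Bool,
        z = z (PUnit.unit, false) • x PUnit.unit false + z (PUnit.unit, true) • x PUnit.unit true := by
      intro z
      ext ⟨⟨⟩, b⟩
      cases b <;> simp [x]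
    let l : E PUnit.{1} Bool →ₗ[ℝ] E F Bool := lin (fun _ => 1) id
    have hl : ∀ w, l w = 0 ↔ w = 0 := by
      intro w
      refine ⟨fun h => ?_, fun h => by simp [h]⟩
      have : (lin (fun _ => PUnit.unit) id : E F Bool →ₗ[ℝ] E PUnit.{1} Bool) ∘ₗ l = LinearMap.id :=
        hom_ext fun a i => by simp [l, lin_x]
      have h2 := LinearMap.congr_fun this w
      simpa [h] using h2.symm
    have hg : ∀ w ∈ Gen PUnit.{1} (fun _ _ => False),
        l w ∈ Gen F (fun c d => c = a ∧ d = !a) := by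
      rintro w (⟨g, i, rfl⟩ | ⟨g, rfl⟩ | ⟨g, rfl⟩ | ⟨g, h, c, d, -, h2, -⟩)
      · exact Or.inl ⟨1, i, lin_x _ _ _ _⟩
      · exact Or.inr (Or.inl ⟨1, by simp [l, lin_x]⟩)
      · exact Or.inr (Or.inr (Or.inl ⟨1, by simp [l, lin_x]⟩))
      · exact h2.elim
    show (B0 F a).nm (l y) = A0.nm y
    apply le_antisymm
    · apply A0.le_nm
      rintro _ ⟨n, β, v, hv, rfl, rfl⟩
      apply (B0 F a).nm_le
      refine ⟨n, β, fun k => l (v k), fun k => ?_, ?_, ?_⟩
      · rcases hv k with h | h | h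
        · exact Or.inl ((hl _).2 h)
        · exact Or.inr (Or.inl (hg _ h))
        · exact Or.inr (Or.inr (by rw [← map_neg]; exact hg _ h))
      · exact (map_sum l _ _).trans (Finset.sum_congr rfl fun k _ => map_smul l _ _)
      · refine Finset.sum_congr rfl fun k _ => ?_
        show _ * νν (v k) = _ * νν (l (v k))
        rw [νν_congr (hl (v k))]
    · have key : ∀ i : Bool, |y (PUnit.unit, i)| ≤ (B0 F a).nm (l y) := by
        intro i
        obtain ⟨k, hk⟩ : ∃ k : F, (1 = k ↔ i = a) := by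
          by_cases h : i = a
          · exact ⟨1, by simp [h]⟩
          · obtain ⟨k, hk⟩ := exists_ne (1 : F)
            exact ⟨k, by simp [h, hk.symm]⟩
        have h1 := ww_le (nB F a) (fn_le k a _ fun _ _ h => h)
        have h2 : fn k a (l y) = y (PUnit.unit, i) := by
          conv_lhs => rw [hy y]
          simp only [l, map_add, map_smul, lin_x, fn_x, id, hk, smul_eq_mul]
          cases i <;> cases a <;> simp
        rw [abs_le]
        constructor
        · have := (B0 F a).fn_le (-fn k a) (fun w hw => (abs_neg _).trans_le (h1 w hw)) (l y)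
          have h3 : (-fn k a) (l y) = -y (PUnit.unit, i) := by rw [LinearMap.neg_apply, h2]
          have h4 : -y (PUnit.unit, i) ≤ (B0 F a).nm (l y) := h3 ▸ this
          linarith
        · exact h2 ▸ (B0 F a).fn_le (fn k a) h1 (l y)
      have k0 := key false
      have k1 := key true
      set p : ℝ := y (PUnit.unit, false) with hp
      set q : ℝ := y (PUnit.unit, true) with hq
      have m1 : x PUnit.unit false + x PUnit.unit true ∈ A0.W :=
        Or.inr (Or.inl (Or.inr (Or.inl ⟨_, rfl⟩)))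
      have m2 : x PUnit.unit false - x PUnit.unit true ∈ A0.W :=
        Or.inr (Or.inl (Or.inr (Or.inr (Or.inl ⟨_, rfl⟩))))
      have s := A0.nm_le (A0.S_add (A0.S_smul ((p + q) / 2) (A0.S_mem m1))
        (A0.S_smul ((p - q) / 2) (A0.S_mem m2)))
      have e : ((p + q) / 2) • (x PUnit.unit false + x PUnit.unit true) +
          ((p - q) / 2) • (x PUnit.unit false - x PUnit.unit true) = (y : E PUnit.{1} Bool) := by
        conv_rhs => rw [hy y]
        rw [← hp, ← hq]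
        module
      have n1 : ∀ w : E PUnit.{1} Bool, A0.ν w ≤ 1 := fun w => by
        show νν w ≤ 1
        unfold νν; split_ifs <;> norm_num
      have s' : A0.nm y ≤ |(p + q) / 2| * A0.ν (x PUnit.unit false + x PUnit.unit true) +
          |(p - q) / 2| * A0.ν (x PUnit.unit false - x PUnit.unit true) := e ▸ s
      have a1 := mul_le_mul_of_nonneg_left (n1 (x PUnit.unit false + x PUnit.unit true))
        (abs_nonneg ((p + q) / 2))
      have a2 := mul_le_mul_of_nonneg_left (n1 (x PUnit.unit false - x PUnit.unit true))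
        (abs_nonneg ((p - q) / 2))
      rw [abs_le] at k0 k1
      rcases abs_cases ((p + q) / 2) with h | h <;> rcases abs_cases ((p - q) / 2) with h' | h' <;>
        linarith [k0.1, k0.2, k1.1, k1.2, h.1, h'.1]

theorem bound {F : Type} [Group F] [Finite F] [Nontrivial F] {a : Bool} {D : RFP}
    (φ : F →* D.F) (ψ : Bool → D.I) (hi : ∀ y : E F Bool, D.nm (lin φ ψ y) = (B0 F a).nm y)
    (f : E D.F D.I →ₗ[ℝ] ℝ) (hf : ∀ z, f z ≤ D.nm z) (m : D.F)
    {w : E F Bool} (hw : w ∈ Gen F (fun c d => c = a ∧ d = !a)) :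
    f (act m (lin φ ψ w)) ≤ 1 := by
  refine (hf _).trans ((D.nm_act_le _ _).trans ?_)
  rw [hi w, (B0 F a).nm_W (Or.inr (Or.inl hw))]
  show νν w ≤ 1
  unfold νν; split_ifs <;> norm_num

/-- The class of rational finitely presented actions fails the amalgamation property. -/
theorem result :
    ∃ (A B C : RFP) (e₁ : Emb A B) (e₂ : Emb A C), ∀ (D : RFP) (f₁ : Emb B D) (f₂ : Emb C D),
      ¬ (f₁.φ.comp e₁.φ = f₂.φ.comp e₂.φ ∧ f₁.ψ ∘ e₁.ψ = f₂.ψ ∘ e₂.ψ) := by
  haveI : Fact (1 < 3) := ⟨by norm_num⟩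
  haveI : Fact (1 < 2) := ⟨by norm_num⟩
  refine ⟨A0, B0 (Multiplicative (ZMod 3)) false, B0 (Multiplicative (ZMod 2)) true,
    e0 _ _, e0 _ _, ?_⟩
  rintro D f₁ f₂ ⟨-, hψ⟩
  obtain ⟨φ1, φ2, ψ, i1, i2⟩ : ∃ (φ1 : Multiplicative (ZMod 3) →* D.F)
      (φ2 : Multiplicative (ZMod 2) →* D.F) (ψ : Bool → D.I),
      (∀ y : E (Multiplicative (ZMod 3)) Bool,
        D.nm (lin φ1 ψ y) = (B0 (Multiplicative (ZMod 3)) false).nm y) ∧
      (∀ y : E (Multiplicative (ZMod 2)) Bool,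
        D.nm (lin φ2 ψ y) = (B0 (Multiplicative (ZMod 2)) true).nm y) := by
    have h : f₁.ψ = f₂.ψ := hψ
    exact ⟨f₁.φ, f₂.φ, f₁.ψ, f₁.isom, h ▸ f₂.isom⟩
  clear hψ f₁ f₂
  have hx : (x 1 (ψ false) : E D.F D.I) ≠ 0 := by simp [x]
  obtain ⟨f, hf1, hf⟩ := D.hb _ hx
  have one : f (x 1 (ψ false)) = 1 := by
    have h1 := i1 (x 1 false)
    rw [lin_x, map_one, RFP.nm_W _ (RFP.basis_mem _ _ _)] at h1
    rw [hf1, RFP.nm_W _ (RFP.basis_mem _ _ _), h1]
    refine ((B0 (Multiplicative (ZMod 3)) false).nm_W (RFP.basis_mem _ _ _)).trans ?_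
    show νν (x (1 : Multiplicative (ZMod 3)) false) = 1
    unfold νν
    rw [if_neg]
    simp [x]
  have b0 : ∀ m b, f (x m (ψ b)) ≤ 1 := by
    intro m b
    have := bound φ1 ψ i1 f hf m (Or.inl ⟨1, b, rfl⟩)
    rwa [lin_x, act_x, map_one, mul_one] at this
  have b1 : ∀ m, f (x m (ψ false)) + f (x m (ψ true)) ≤ 1 := by
    intro m
    have := bound φ1 ψ i1 f hf m (Or.inr (Or.inl ⟨1, rfl⟩))
    rwa [map_add, map_add, map_add, lin_x, lin_x, act_x, act_x, map_one, mul_one] at this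
  have b2 : ∀ m (t : Multiplicative (ZMod 3)), 1 ≠ t →
      2 * f (x m (ψ false)) - f (x (m * φ1 t) (ψ true)) ≤ 1 := by
    intro m t ht
    have := bound φ1 ψ i1 f hf m (Or.inr (Or.inr (Or.inr ⟨1, t, false, true, ht, ⟨rfl, rfl⟩, rfl⟩)))
    rwa [map_sub, map_sub, map_sub, map_smul, map_smul, map_smul, lin_x, lin_x, act_x, act_x,
      map_one, mul_one] at this
  have b3 : ∀ m (t : Multiplicative (ZMod 2)), 1 ≠ t →
      2 * f (x m (ψ true)) - f (x (m * φ2 t) (ψ false)) ≤ 1 := by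
    intro m t ht
    have := bound φ2 ψ i2 f hf m (Or.inr (Or.inr (Or.inr ⟨1, t, true, false, ht, ⟨rfl, rfl⟩, rfl⟩)))
    rwa [map_sub, map_sub, map_sub, map_smul, map_smul, map_smul, lin_x, lin_x, act_x, act_x,
      map_one, mul_one] at this
  let Sa := {m : D.F // f (x m (ψ false)) = 1}
  let Sb := {m : D.F // f (x m (ψ true)) = 1}
  let t : Bool → Multiplicative (ZMod 3) := fun b =>
    Multiplicative.ofAdd (if b then 1 else 2)
  have ht : ∀ b, 1 ≠ t b := by decide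
  have ht2 : ∀ b c, b ≠ c → 1 ≠ t b * (t c)⁻¹ := by decide
  have hab : ∀ (m : Sa) (s : Multiplicative (ZMod 3)), 1 ≠ s →
      f (x (m.1 * φ1 s) (ψ true)) = 1 := by
    intro m s hs
    have := b2 m.1 s hs
    have := m.2
    exact le_antisymm (b0 _ _) (by linarith)
  let u : Sa × Bool → Sb := fun p => ⟨p.1.1 * φ1 (t p.2), hab _ _ (ht _)⟩
  have hu : Function.Injective u := by
    rintro ⟨m, b⟩ ⟨m', c⟩ h
    have h1 : m.1 * φ1 (t b) = m'.1 * φ1 (t c) := congrArg Subtype.val h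
    by_cases hbc : b = c
    · subst hbc
      exact Prod.ext (Subtype.ext (mul_right_cancel h1)) rfl
    · exfalso
      have h2 := hab m _ (ht2 b c hbc)
      have h3 : m.1 * φ1 (t b * (t c)⁻¹) = m'.1 := by
        have e1 : φ1 (t b * (t c)⁻¹) = φ1 (t b) * (φ1 (t c))⁻¹ :=
          (φ1.map_mul _ _).trans (congrArg _ (φ1.map_inv _))
        rw [e1, ← mul_assoc, h1, mul_inv_cancel_right]
      rw [h3] at h2
      have := b1 m'.1
      have := m'.2
      linarith
  let v : Sb → Sa := fun m => ⟨m.1 * φ2 (Multiplicative.ofAdd (1 : ZMod 2)), by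
    have := b3 m.1 (Multiplicative.ofAdd 1) (by decide)
    have := m.2
    exact le_antisymm (b0 _ _) (by linarith)⟩
  have hv : Function.Injective v := fun m m' h =>
    Subtype.ext (mul_right_cancel (congrArg Subtype.val h))
  have c1 := Nat.card_le_card_of_injective _ (hv.comp hu)
  haveI : Nonempty Sa := ⟨⟨1, one⟩⟩
  have c2 : 0 < Nat.card Sa := Nat.card_pos
  rw [Nat.card_prod, Nat.card_eq_fintype_card (α := Bool), Fintype.card_bool] at c1
  omega

end Pool.Agent.Results.MP_66eb21_an.NoAP
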